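import Mathlib

/-!
# Digit changes of irrational algebraic numbers: definitions

`β = ∑ t_n b^(-n)` with bounded integers `t_n`. See `/team-store/MP_5b6025_nt_DIGITCHANGES.md`.
-/

set_option autoImplicit false

open Polynomial

namespace Pool.Agent.Lib.MP5b6025.DC

/-- `v` is a sum of at most `m` positions `x` with `t x ≠ 0`. -/
def IsSum (t : ℕ → ℤ) (m v : ℕ) : Prop :=
  ∃ ν : Multiset ℕ, ν.card ≤ m ∧ (∀ x ∈ ν, t x ≠ 0) ∧ ν.sum = v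

/-- `[X, X + K)` contains no sum of at most `m` positions. -/
def Gap (t : ℕ → ℤ) (K m : ℕ) (X : ℤ) : Prop :=
  ∀ v : ℕ, IsSum t m v → (v : ℤ) < X ∨ X + K ≤ v

/-- The generating series. -/
noncomputable def FF (t : ℕ → ℤ) : PowerSeries ℤ := PowerSeries.mk t

/-- Truncated value at `1 / b`. -/
noncomputable def tau (b : ℕ) (X : ℤ) (f : PowerSeries ℤ) : ℝ :=
  ∑ v ∈ Finset.range X.toNat, ((PowerSeries.coeff v f : ℤ) : ℝ) / (b : ℝ) ^ v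

/-- Truncated value of `Q (F)`. -/
noncomputable def TT (b : ℕ) (t : ℕ → ℤ) (Q : ℤ[X]) (X : ℤ) : ℝ := tau b X (aeval (FF t) Q)

/-- The number `β`. -/
noncomputable def bet (b : ℕ) (t : ℕ → ℤ) : ℝ := ∑' n, (t n : ℝ) / (b : ℝ) ^ n

/-- Sum of the absolute values of the coefficients. -/
noncomputable def l1 (Q : ℤ[X]) : ℝ := ∑ i ∈ Q.support, |(Q.coeff i : ℝ)|

/-- The polynomial bound. -/
noncomputable def GG (B D W : ℕ) : ℝ := 2 * ((B : ℝ) * (W + 1)) ^ (D + 1)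

/-- The functionals `Q ↦ (𝒟_1 ⋯ 𝒟_k Q)(β)`, `𝒟 = ∑_{1 ≤ r ≤ D} θ_r Q^{[r]}` (Hasse derivatives). -/
noncomputable def Jf (D : ℕ) (β : ℝ) : List (ℕ → ℝ) → ℤ[X] → ℝ
  | [], Q => aeval β Q
  | θ :: l, Q => ∑ r ∈ Finset.Icc 1 D, θ r * Jf D β l (hasseDeriv r Q)

/-- A label: a place `s` where the truncated values jump. -/
structure Lab (b : ℕ) (t : ℕ → ℤ) (B D K L μ W ρ g s : ℕ) (m : ℕ → ℕ → ℝ) : Prop where
  supp : ∀ r c, 1 ≤ r → r ≤ D → m r c ≠ 0 →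
    ∃ ν : Multiset ℕ, ν.card ≤ D ∧ (∀ x ∈ ν, ρ < x ∧ t x ≠ 0) ∧ ν.sum = s + c
  bd : ∀ r c, r ≤ D → s + c ≤ W → |m r c| ≤ GG B D W / (b : ℝ) ^ c
  lf : ∃ κ : ℤ[X] → ℝ, ∀ Q : ℤ[X], Q.natDegree ≤ D → ∀ X : ℤ, Gap t K (2 * D) X →
    (g : ℤ) ≤ X + ρ → X ≤ s + ρ →
    TT b t Q X = κ Q + (∑ r ∈ Finset.Icc 1 D, ∑ c ∈ Finset.range ρ,
      m r c * TT b t (hasseDeriv r Q) (X - s - c)) / (b : ℝ) ^ s
  big : ∃ r ∈ Finset.Icc 1 D, 1 / (2 * (b : ℝ) ^ L) ≤ |∑ c ∈ Finset.range μ, m r c|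

end Pool.Agent.Lib.MP5b6025.DC
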