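import Pool.Agent.Lib.MP_5b6025_nt.DC.Spec

/-! # Module DIG: digit changes -/

set_option autoImplicit false

namespace Pool.Agent.Lib.MP5b6025.DC

namespace DigM

open Filter

/-- the digit as a difference of floors -/
theorem digit_eq (b : ℕ) (x : ℝ) (hb : 2 ≤ b) (n : ℕ) :
    digit b x n = ⌊x * (b : ℝ) ^ (n + 1)⌋ - b * ⌊x * (b : ℝ) ^ n⌋ := by
  have hb0 : (b : ℝ) ≠ 0 := by positivity
  have h1 : x * (b : ℝ) ^ n = x * (b : ℝ) ^ (n + 1) / (b : ℝ) := by
    rw [pow_succ]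
    field_simp
  rw [digit, h1, Int.floor_div_natCast, Int.emod_def]

theorem digit_nonneg (b : ℕ) (x : ℝ) (hb : 2 ≤ b) (n : ℕ) : 0 ≤ digit b x n :=
  Int.emod_nonneg _ (by positivity)

theorem digit_lt (b : ℕ) (x : ℝ) (hb : 2 ≤ b) (n : ℕ) : digit b x n < b :=
  Int.emod_lt_of_pos _ (by positivity)

/-- partial sums of the expansion -/
theorem partial_sum (b : ℕ) (x : ℝ) (hb : 2 ≤ b) (N : ℕ) :
    ∑ n ∈ Finset.range N, (digit b x n : ℝ) / (b : ℝ) ^ n =
      b * (⌊x * (b : ℝ) ^ N⌋ / (b : ℝ) ^ N - ⌊x⌋) := by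
  have hb0 : (b : ℝ) ≠ 0 := by positivity
  induction N with
  | zero => simp
  | succ N ih =>
    rw [Finset.sum_range_succ, ih, digit_eq b x hb N]
    push_cast
    field_simp
    ring

theorem tendsto_floor (b : ℕ) (x : ℝ) (hb : 2 ≤ b) :
    Tendsto (fun N : ℕ => (⌊x * (b : ℝ) ^ N⌋ : ℝ) / (b : ℝ) ^ N) atTop (nhds x) := by
  have hb1 : (1 : ℝ) < b := by exact_mod_cast (by omega : 1 < b)
  have h1 : Tendsto (fun N : ℕ => ((b : ℝ) ^ N)⁻¹) atTop (nhds 0) :=
    (tendsto_pow_atTop_atTop_of_one_lt hb1).inv_tendsto_atTop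
  have h2 : Tendsto (fun N : ℕ => x - ((b : ℝ) ^ N)⁻¹) atTop (nhds x) := by
    simpa using tendsto_const_nhds.sub h1
  refine tendsto_of_tendsto_of_tendsto_of_le_of_le h2 tendsto_const_nhds ?_ ?_
  · intro N
    have hp : 0 < (b : ℝ) ^ N := by positivity
    simp only
    rw [le_div_iff₀ hp, sub_mul, inv_mul_cancel₀ hp.ne']
    linarith [Int.lt_floor_add_one (x * (b : ℝ) ^ N)]
  · intro N
    have hp : 0 < (b : ℝ) ^ N := by positivity
    simp only
    rw [div_le_iff₀ hp]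
    exact Int.floor_le _

/-- the expansion -/
theorem hasSum (b : ℕ) (x : ℝ) (hb : 2 ≤ b) :
    HasSum (fun n => (digit b x n : ℝ) / (b : ℝ) ^ n) (b * (x - ⌊x⌋)) := by
  rw [hasSum_iff_tendsto_nat_of_nonneg]
  · simp only [partial_sum b x hb]
    exact ((tendsto_floor b x hb).sub_const _).const_mul _
  · intro n
    exact div_nonneg (by exact_mod_cast digit_nonneg b x hb n) (by positivity)

theorem bet_eq (b : ℕ) (x : ℝ) (hb : 2 ≤ b) :
    bet b (fun n => digit b x (n + 1) - digit b x n) =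
      ((b : ℝ) ^ 2 - b) * x - (((b : ℝ) ^ 2 - b) * ⌊x⌋ + b * digit b x 0) := by
  have hb0 : (b : ℝ) ≠ 0 := by positivity
  have h1 := hasSum b x hb
  have h2 : HasSum (fun n => (digit b x (n + 1) : ℝ) / (b : ℝ) ^ (n + 1))
      (b * (x - ⌊x⌋) - digit b x 0) := by
    have := (hasSum_nat_add_iff' (f := fun n => (digit b x n : ℝ) / (b : ℝ) ^ n) 1).mpr h1
    simpa using this
  have h3 : HasSum (fun n => (digit b x (n + 1) : ℝ) / (b : ℝ) ^ n)
      (b * (b * (x - ⌊x⌋) - digit b x 0)) := by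
    have h4 := h2.mul_left (b : ℝ)
    have h5 : (fun n => (digit b x (n + 1) : ℝ) / (b : ℝ) ^ n) =
        fun n => (b : ℝ) * ((digit b x (n + 1) : ℝ) / (b : ℝ) ^ (n + 1)) := by
      funext n
      rw [pow_succ]
      field_simp
    rw [h5]
    exact h4
  have h6 := h3.sub h1
  rw [bet]
  have h7 : (fun n => (((digit b x (n + 1) - digit b x n : ℤ)) : ℝ) / (b : ℝ) ^ n) =
      fun n => (digit b x (n + 1) : ℝ) / (b : ℝ) ^ n - (digit b x n : ℝ) / (b : ℝ) ^ n := by
    funext n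
    push_cast
    ring
  rw [h7, h6.tsum_eq]
  ring

end DigM

theorem specDIG (hL : SpecLOGS) : SpecDIG := by
  intro b x hb halg hirr
  have hb0 : (b : ℝ) ≠ 0 := by positivity
  have hbet := DigM.bet_eq b x hb
  have hbound : ∀ n, |digit b x (n + 1) - digit b x n| ≤ b := by
    intro n
    have h1 := DigM.digit_nonneg b x hb n
    have h2 := DigM.digit_nonneg b x hb (n + 1)
    have h3 := DigM.digit_lt b x hb n
    have h4 := DigM.digit_lt b x hb (n + 1)
    rw [abs_le]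
    constructor <;> linarith
  have hcast : ((b : ℝ) ^ 2 - b) * x - (((b : ℝ) ^ 2 - b) * ⌊x⌋ + b * digit b x 0) =
      (((b : ℤ) ^ 2 - b : ℤ) : ℝ) * x - ((((b : ℤ) ^ 2 - b) * ⌊x⌋ + b * digit b x 0 : ℤ) : ℝ) := by
    push_cast
    ring
  have hne : ((b : ℤ) ^ 2 - b : ℤ) ≠ 0 := by
    have : (2 : ℤ) ≤ b := by exact_mod_cast hb
    nlinarith
  have halg' : IsAlgebraic ℚ (bet b (fun n => digit b x (n + 1) - digit b x n)) := by
    rw [hbet, hcast]
    exact ((isAlgebraic_intCast _).mul halg).sub (isAlgebraic_intCast _)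
  have hirr' : Irrational (bet b (fun n => digit b x (n + 1) - digit b x n)) := by
    rw [hbet, hcast]
    exact (hirr.intCast_mul hne).sub_intCast _
  obtain ⟨c, hc, N₀, h⟩ := hL b _ b hb hbound halg' hirr'
  refine ⟨c, hc, N₀, fun N hN => (h N hN).trans (le_of_eq ?_)⟩
  congr 2
  refine Finset.filter_congr fun i _ => ?_
  rw [ne_eq, ne_eq, sub_eq_zero]
  exact not_congr eq_comm

end Pool.Agent.Lib.MP5b6025.DC
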