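import Pool.Agent.Lib.MP_5b6025_nt.DC.Spec

/-! # Module GAPS: counting and gaps -/

set_option autoImplicit false

namespace Pool.Agent.Lib.MP5b6025.DC

namespace GapsM

/-- The sumset of at most `k` elements of `S`. -/
def T (S : Finset ℕ) : ℕ → Finset ℕ
  | 0 => {0}
  | k + 1 => Finset.image₂ (· + ·) (T S k) (insert 0 S)

theorem card_T (S : Finset ℕ) (A : ℕ) (h : S.card ≤ A) (k : ℕ) : (T S k).card ≤ (A + 1) ^ k := by
  induction k with
  | zero => simp [T]
  | succ k ih =>
    refine (Finset.card_image₂_le _ _ _).trans ?_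
    rw [pow_succ]
    exact Nat.mul_le_mul ih ((Finset.card_insert_le _ _).trans (by omega))

theorem zero_mem_T (S : Finset ℕ) (k : ℕ) : 0 ∈ T S k := by
  induction k with
  | zero => simp [T]
  | succ k ih =>
    exact Finset.mem_image₂.2 ⟨0, ih, 0, Finset.mem_insert_self _ _, rfl⟩

theorem mem_T (S : Finset ℕ) (k : ℕ) (ν : Multiset ℕ) (h : ν.card ≤ k) (h2 : ∀ x ∈ ν, x ∈ S) :
    ν.sum ∈ T S k := by
  induction k generalizing ν with
  | zero =>
    have : ν = 0 := Multiset.card_eq_zero.1 (by omega)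
    rw [this]
    simp [T]
  | succ k ih =>
    induction ν using Multiset.induction_on with
    | empty =>
      rw [Multiset.sum_zero]
      exact zero_mem_T S (k + 1)
    | cons x ν _ =>
      rw [Multiset.card_cons] at h
      have h3 := ih ν (by omega) fun y hy => h2 y (Multiset.mem_cons_of_mem hy)
      rw [Multiset.sum_cons]
      exact Finset.mem_image₂.2 ⟨_, h3, x, Finset.mem_insert_of_mem
        (h2 x (Multiset.mem_cons_self x ν)), add_comm _ _⟩

/-- The pigeonhole principle for blocks of length `K`. -/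
theorem exists_block (t : ℕ → ℤ) (W A m : ℕ)
    (hA : ((Finset.range (W + 1)).filter fun n => t n ≠ 0).card ≤ A) (K Y : ℕ)
    (hW : Y + K * ((A + 1) ^ m + 1) ≤ W + 1) :
    ∃ j ≤ (A + 1) ^ m, ∀ v : ℕ, IsSum t m v → v < Y + K * j ∨ Y + K * (j + 1) ≤ v := by
  by_contra hcon
  push Not at hcon
  have h1 : ∀ j : ℕ, ∃ v : ℕ, j ≤ (A + 1) ^ m →
      IsSum t m v ∧ Y + K * j ≤ v ∧ v < Y + K * (j + 1) := by
    intro j
    by_cases hj : j ≤ (A + 1) ^ m
    · obtain ⟨v, hv⟩ := hcon j hj
      exact ⟨v, fun _ => hv⟩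
    · exact ⟨0, fun h => absurd h hj⟩
  choose v hv using h1
  set S := (Finset.range (W + 1)).filter fun n => t n ≠ 0 with hS
  have h2 : ∀ j ∈ Finset.range ((A + 1) ^ m + 1), v j ∈ T S m := by
    intro j hj
    have hj2 : j ≤ (A + 1) ^ m := by
      have := Finset.mem_range.1 hj
      omega
    obtain ⟨⟨ν, h3, h4, h5⟩, _, h7⟩ := hv j hj2
    rw [← h5]
    refine mem_T S m ν h3 fun x hx => ?_
    have h8 : x ≤ ν.sum := Multiset.le_sum_of_mem hx
    have h9 : K * (j + 1) ≤ K * ((A + 1) ^ m + 1) := Nat.mul_le_mul_left K (by omega)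
    rw [hS, Finset.mem_filter, Finset.mem_range]
    exact ⟨by omega, h4 x hx⟩
  have h3 : Set.InjOn v (Finset.range ((A + 1) ^ m + 1) : Finset ℕ) := by
    intro i hi j hj hij
    have hi2 : i ≤ (A + 1) ^ m := by
      have := Finset.mem_range.1 (Finset.mem_coe.1 hi)
      omega
    have hj2 : j ≤ (A + 1) ^ m := by
      have := Finset.mem_range.1 (Finset.mem_coe.1 hj)
      omega
    obtain ⟨_, a1, a2⟩ := hv i hi2
    obtain ⟨_, b1, b2⟩ := hv j hj2
    rw [hij] at a1 a2
    by_contra hne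
    rcases Nat.lt_or_gt_of_ne hne with h | h
    · have : K * (i + 1) ≤ K * j := Nat.mul_le_mul_left K h
      omega
    · have : K * (j + 1) ≤ K * i := Nat.mul_le_mul_left K h
      omega
  have h4 := Finset.card_le_card_of_injOn v h2 h3
  rw [Finset.card_range] at h4
  have h5 := card_T S A hA m
  omega

end GapsM

theorem specGAPS : SpecGAPS := by
  intro t W A m hA
  refine ⟨fun K Y hK hW => ?_, fun ρ Y hρ h1 h2 => ?_⟩
  · obtain ⟨j, hj, h⟩ := GapsM.exists_block t W A m hA K Y (by omega)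
    refine ⟨Y + K * j, by omega, ?_, fun v hv => ?_⟩
    · have : K * (j + 1) ≤ K * ((A + 1) ^ m + 1) := Nat.mul_le_mul_left K (by omega)
      have h2 : K * (j + 1) = K * j + K := by ring
      omega
    · have h2 : K * (j + 1) = K * j + K := by ring
      rcases h v hv with h3 | h3
      · left
        exact_mod_cast h3
      · right
        rw [h2, ← add_assoc] at h3
        exact_mod_cast h3
  · obtain ⟨j, hj, h⟩ := GapsM.exists_block t W A m hA ρ (Y - ρ * ((A + 1) ^ m + 1)) (by omega)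
    have h3 : ρ * (j + 1) ≤ ρ * ((A + 1) ^ m + 1) := Nat.mul_le_mul_left ρ (by omega)
    have h4 : ρ * (j + 1) = ρ * j + ρ := by ring
    refine ⟨Y - ρ * ((A + 1) ^ m + 1) + ρ * (j + 1), by omega, by omega, by omega, fun v hv => ?_⟩
    rcases h v hv with h5 | h5
    · left
      omega
    · right
      exact h5

end Pool.Agent.Lib.MP5b6025.DC
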