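import Pool.Agent.Lib.MP_5b6025_nt.DC.Defs

/-!
# Digit changes of irrational algebraic numbers: module specifications

Text with a proof of every module: `/team-store/MP_5b6025_nt_DIGITCHANGES.md`.
-/

set_option autoImplicit false

open Polynomial

namespace Pool.Agent.Lib.MP5b6025.DC

/-! ## Elementary facts -/

/-- Module SUPP: support and size of the powers of a series (`E` is the part of `F` with the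
indices satisfying `p`). -/
def SpecSUPP : Prop :=
  ∀ (t : ℕ → ℤ) (B : ℕ) (p : ℕ → Prop) [DecidablePred p] (r v : ℕ), (∀ n, |t n| ≤ B) →
    (PowerSeries.coeff v ((FF fun n => if p n then t n else 0) ^ r) ≠ 0 →
      ∃ ν : Multiset ℕ, ν.card = r ∧ (∀ x ∈ ν, p x ∧ t x ≠ 0) ∧ ν.sum = v) ∧
    |(PowerSeries.coeff v ((FF fun n => if p n then t n else 0) ^ r) : ℤ)| ≤ ((B * (v + 1)) ^ r : ℕ)

/-- Module TBD: size of the truncated values. -/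
def SpecTBD : Prop :=
  ∀ (b : ℕ) (t : ℕ → ℤ) (B D W : ℕ) (Q : ℤ[X]) (X : ℤ), 2 ≤ b → 1 ≤ B → (∀ n, |t n| ≤ B) →
    Q.natDegree ≤ D → X ≤ W → |TT b t Q X| ≤ l1 Q * GG B D W

/-- Module TAPP: approximation of `Q(β)` at a gap, and its consequence for `Q(β) = 0`. -/
def SpecTAPP : Prop :=
  ∀ (b : ℕ) (t : ℕ → ℤ) (B D W K : ℕ) (Q : ℤ[X]) (X : ℕ), 2 ≤ b → 1 ≤ B → (∀ n, |t n| ≤ B) →
    1 ≤ D → D ≤ W → Q.natDegree ≤ D → X ≤ W → Gap t K D X →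
    |TT b t Q X - aeval (bet b t) Q| ≤ l1 Q * GG B D W / (b : ℝ) ^ (X + K) ∧
    (aeval (bet b t) Q = 0 → l1 Q * GG B D W < (b : ℝ) ^ K → TT b t Q X = 0)

/-- Module HAS: Hasse derivatives. -/
def SpecHAS : Prop :=
  ∀ (D r : ℕ) (Q : ℤ[X]), Q.natDegree ≤ D → (hasseDeriv r Q).natDegree ≤ D - r ∧
    l1 (hasseDeriv r Q) ≤ 2 ^ D * l1 Q

/-- Module LIOU: Liouville's inequality. -/
def SpecLIOU : Prop :=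
  ∀ (b : ℕ) (t : ℕ → ℤ) (B : ℕ) (P : ℤ[X]), 2 ≤ b → 1 ≤ B → (∀ n, |t n| ≤ B) → P ≠ 0 →
    aeval (bet b t) P = 0 → Irrational (bet b t) →
    ∃ C : ℕ, ∀ X Y : ℕ, P.natDegree * X + C ≤ Y → tau b X (FF t) ≠ tau b Y (FF t)

/-- Module GAPS: counting and gaps. -/
def SpecGAPS : Prop :=
  ∀ (t : ℕ → ℤ) (W A m : ℕ), ((Finset.range (W + 1)).filter fun n => t n ≠ 0).card ≤ A →
    (∀ (K Y : ℕ), 1 ≤ K → Y + K * ((A + 1) ^ m + 1) ≤ W →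
      ∃ X : ℕ, Y ≤ X ∧ X + K ≤ Y + K * ((A + 1) ^ m + 1) ∧ Gap t K m X) ∧
    (∀ (ρ Y : ℕ), 1 ≤ ρ → ρ * ((A + 1) ^ m + 1) < Y → Y ≤ W →
      ∃ g : ℕ, Y ≤ g + ρ * ((A + 1) ^ m + 1) ∧ ρ < g ∧ g ≤ Y ∧
        ∀ v : ℕ, IsSum t m v → v + ρ < g ∨ g ≤ v)

/-! ## Labels -/

/-- Module LABEL: existence of a label. -/
def SpecLABEL : Prop :=
  ∀ (b : ℕ) (t : ℕ → ℤ) (B D K L μ W ρ g X₁ X₂ : ℕ), 2 ≤ b → 1 ≤ B → (∀ n, |t n| ≤ B) →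
    1 ≤ D → D ≤ W → 1 ≤ K → K ≤ ρ → L ≤ μ → 2 * μ ≤ W → ρ < g → g ≤ X₁ → X₁ ≤ X₂ →
    2 * X₂ ≤ W → 4 * GG B D W * (μ + 1) ≤ (b : ℝ) ^ K →
    (∀ v : ℕ, IsSum t D v → v + ρ < g ∨ g ≤ v) →
    (∀ Y : ℕ, Y + L ≤ W → ∃ X : ℕ, Y ≤ X ∧ X + K ≤ Y + L ∧ Gap t K D X) →
    Gap t K D X₁ → Gap t K D X₂ → tau b X₁ (FF t) ≠ tau b X₂ (FF t) →
    ∃ (s : ℕ) (m : ℕ → ℕ → ℝ), g ≤ s + K ∧ s < X₂ ∧ Lab b t B D K L μ W ρ g s m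

/-! ## Jumps -/

/-- Module JUMP. The labels are indexed by the levels `a`; `lo a`, `hi a` is the window of `a`;
a list `l` of levels is strictly decreasing and pairwise non-attached. -/
def SpecJUMP : Prop :=
  ∀ (b : ℕ) (t : ℕ → ℤ) (B D K L μ W d Δ : ℕ) (Γ : ℝ) (s ρ g lo hi : ℕ → ℕ)
    (m : ℕ → ℕ → ℕ → ℝ), 2 ≤ b → 1 ≤ B → (∀ n, |t n| ≤ B) → 1 ≤ D → D ≤ W → 1 ≤ d →
    (d + 1) * μ ≤ Δ → 2 ^ (d + 1) * Δ ≤ W →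
    (D : ℝ) * 2 ^ D * (2 ^ d * Δ + 1) * GG B D W + 2 * GG B D W ≤ Γ →
    ∀ l : List ℕ, l.length ≤ d → (∀ a ∈ l, Lab b t B D K L μ W (ρ a) (g a) (s a) (m a)) →
    (∀ a ∈ l, g a ≤ s a + K ∧ (d + 1) * lo a + 2 ^ d * Δ + K ≤ ρ a ∧ s a + ρ a ≤ hi a ∧
      2 * (s a + ρ a) ≤ W) →
    l.Pairwise (fun a a' => a' < a ∧ d * s a' + 2 ^ d * Δ ≤ ρ a ∧
      ∀ r ∈ Finset.Icc 1 D, ∀ c ≤ ρ a, m a r c ≠ 0 → c < lo a' ∨ hi a' < c) →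
    ∀ (Q : ℤ[X]) (X Y : ℤ), Q.natDegree ≤ D →
      Gap t K ((l.length + 1) * D) X → Gap t K ((l.length + 1) * D) Y →
      ((l.map s).sum : ℤ) - 2 ^ (d - l.length) * Δ ≤ X → X ≤ ((l.map s).sum : ℤ) →
      ((l.map s).sum : ℤ) + (l.length + 1) * μ ≤ Y →
      Y ≤ ((l.map s).sum : ℤ) + 2 ^ (d - l.length) * Δ →
      |(b : ℝ) ^ (l.map s).sum * (TT b t Q Y - TT b t Q X) -
        Jf D (bet b t) (l.map fun a r => ∑ c ∈ Finset.range μ, m a r c) Q| ≤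
        (l.length + 1) * Γ ^ (l.length + 1) / (b : ℝ) ^ μ * l1 Q

/-! ## Algebra -/

/-- Module ORD (exact version). -/
def SpecORDER : Prop :=
  ∀ (β : ℝ) (P : ℤ[X]) (d : ℕ), P ≠ 0 → aeval β P = 0 → P.natDegree = d →
    ∀ l : List (ℕ → ℝ), l.length = d → (∀ θ ∈ l, ∃ r ∈ Finset.Icc 1 (d ^ 2), θ r ≠ 0) →
    (∀ θ ∈ l, ∀ j ≤ d ^ 2 - d, Jf (d ^ 2) β [θ] (X ^ j * P) = 0) →
    ∃ j ≤ d ^ 2 - d, Jf (d ^ 2) β l (X ^ j * P) ≠ 0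

/-- Module ALG (compactness). -/
def SpecALG : Prop :=
  ∀ (β : ℝ) (P : ℤ[X]) (d : ℕ), P ≠ 0 → aeval β P = 0 → P.natDegree = d →
    ∃ κ : ℝ, 0 < κ ∧ ∀ (w : ℝ), 0 < w → w ≤ 1 → ∀ l : List (ℕ → ℝ), l.length = d →
    (∀ θ ∈ l, ∃ r ∈ Finset.Icc 1 (d ^ 2), w ≤ |θ r|) →
    ∃ j ≤ d ^ 2 - d, (∃ θ ∈ l, κ * w ≤ |Jf (d ^ 2) β [θ] (X ^ j * P)|) ∨
      κ * w ^ d ≤ |Jf (d ^ 2) β l (X ^ j * P)|

/-! ## Attached levels -/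

/-- Module SIEG: few lacunary numbers are of the form (sum of at most `D` elements of `V`) `- s`. -/
def SpecSIEG : Prop :=
  ∀ (V : Finset ℕ) (s D : ℕ) (𝒜 : Finset ℕ) (c : ℕ → ℕ), 1 ≤ D → (∀ a ∈ 𝒜, 0 < c a) →
    (∀ a ∈ 𝒜, ∃ ν : Multiset ℕ, ν.card ≤ D ∧ (∀ x ∈ ν, x ∈ V) ∧ ν.sum = s + c a) →
    (∀ a ∈ 𝒜, ∀ a' ∈ 𝒜, a' < a → D * 𝒜.card ^ 2 * c a' < c a) →
    𝒜.card < 2 * (V.card + 1)

/-- Module SEL: greedy choice of pairwise non-attached levels. -/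
def SpecSEL : Prop :=
  ∀ (G : Finset ℕ) (att : ℕ → ℕ → Prop) [∀ a b, Decidable (att a b)] (d h : ℕ),
    (∀ b ∈ G, (G.filter fun a => a < b ∧ att b a).card ≤ h) → d * (h + 1) ≤ G.card →
    ∃ l : List ℕ, l.length = d ∧ (∀ a ∈ l, a ∈ G) ∧ l.Pairwise fun a a' => a' < a ∧ ¬ att a a'

/-! ## Main results -/

/-- Module CORE: quantitative form. -/
def SpecCORE : Prop :=
  ∀ (b : ℕ) (t : ℕ → ℤ) (B : ℕ), 2 ≤ b → (∀ n, |t n| ≤ B) → IsAlgebraic ℚ (bet b t) →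
    Irrational (bet b t) →
    ∃ C k n₀ : ℕ, 1 ≤ C ∧ 1 ≤ k ∧ ∀ n : ℕ, n₀ ≤ n →
      n ^ 2 ≤ k * ((Finset.range (n ^ (C * n))).filter fun i => t i ≠ 0).card

/-- Module LOGS: logarithmic form. -/
def SpecLOGS : Prop :=
  ∀ (b : ℕ) (t : ℕ → ℤ) (B : ℕ), 2 ≤ b → (∀ n, |t n| ≤ B) → IsAlgebraic ℚ (bet b t) →
    Irrational (bet b t) →
    ∃ c : ℝ, 0 < c ∧ ∃ N₀ : ℕ, ∀ N : ℕ, N₀ ≤ N →
      c * (Real.log N / Real.log (Real.log N)) ^ 2 ≤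
        ((Finset.range N).filter fun i => t i ≠ 0).card

/-- The `(n+1)`-st digit after the point of `x` in base `b`. -/
noncomputable def digit (b : ℕ) (x : ℝ) (n : ℕ) : ℤ := ⌊x * (b : ℝ) ^ (n + 1)⌋ % (b : ℤ)

/-- Module DIG: digit changes. -/
def SpecDIG : Prop :=
  ∀ (b : ℕ) (x : ℝ), 2 ≤ b → IsAlgebraic ℚ x → Irrational x →
    ∃ c : ℝ, 0 < c ∧ ∃ N₀ : ℕ, ∀ N : ℕ, N₀ ≤ N →
      c * (Real.log N / Real.log (Real.log N)) ^ 2 ≤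
        ((Finset.range N).filter fun i => digit b x i ≠ digit b x (i + 1)).card

end Pool.Agent.Lib.MP5b6025.DC
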