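import Pool.Agent.Lib.MP_5b6025_nt.DC.Spec

/-! # Module SUPP: support and size of the powers of a series -/

set_option autoImplicit false

open Polynomial

namespace Pool.Agent.Lib.MP5b6025.DC

theorem specSUPP : SpecSUPP := by
  intro t B p _ r v hB
  induction r generalizing v with
  | zero =>
    rw [pow_zero, PowerSeries.coeff_one]
    split_ifs with h
    · exact ⟨fun _ => ⟨0, rfl, fun x hx => absurd hx (Multiset.notMem_zero x), h.symm⟩, by simp⟩
    · exact ⟨fun h2 => absurd rfl h2, by simp⟩
  | succ r ih =>
    have hE : ∀ j, PowerSeries.coeff j (FF fun n => if p n then t n else 0) =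
        if p j then t j else 0 := fun j => PowerSeries.coeff_mk _ _
    rw [pow_succ, PowerSeries.coeff_mul]
    constructor
    · intro h
      obtain ⟨⟨i, j⟩, hij, h2⟩ := Finset.exists_ne_zero_of_sum_ne_zero h
      rw [Finset.HasAntidiagonal.mem_antidiagonal] at hij
      simp only at hij h2
      obtain ⟨ν, h3, h4, h5⟩ := (ih i).1 (left_ne_zero_of_mul h2)
      have h6 := right_ne_zero_of_mul h2
      rw [hE] at h6
      have hp : p j := by
        by_contra hn
        exact h6 (if_neg hn)
      rw [if_pos hp] at h6
      refine ⟨j ::ₘ ν, by rw [Multiset.card_cons, h3], fun x hx => ?_, ?_⟩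
      · rcases Multiset.mem_cons.1 hx with rfl | hx
        · exact ⟨hp, h6⟩
        · exact h4 x hx
      · rw [Multiset.sum_cons, h5, ← hij, add_comm]
    · have h1 : ∀ x ∈ Finset.HasAntidiagonal.antidiagonal v,
          |(PowerSeries.coeff x.1 ((FF fun n => if p n then t n else 0) ^ r)) *
            (PowerSeries.coeff x.2 (FF fun n => if p n then t n else 0))| ≤
            ((B * (v + 1)) ^ r : ℕ) * (B : ℤ) := by
        intro x hx
        rw [abs_mul]
        refine mul_le_mul (((ih x.1).2).trans ?_) ?_ (abs_nonneg _) (by positivity)
        · have : x.1 ≤ v := by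
            rw [Finset.HasAntidiagonal.mem_antidiagonal] at hx
            omega
          exact_mod_cast Nat.pow_le_pow_left (Nat.mul_le_mul_left B (by omega)) r
        · rw [hE]
          split_ifs
          · exact hB _
          · simp
      refine (Finset.abs_sum_le_sum_abs _ _).trans ((Finset.sum_le_sum h1).trans ?_)
      rw [Finset.sum_const, Finset.Nat.card_antidiagonal, nsmul_eq_mul]
      apply le_of_eq
      push_cast
      ring

end Pool.Agent.Lib.MP5b6025.DC
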