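import Pool.Agent.Lib.MP_5b6025_nt.DC.Supp

/-! # Module TAPP: approximation of `Q(β)` at a gap -/

set_option autoImplicit false

open Polynomial

namespace Pool.Agent.Lib.MP5b6025.DC

namespace TappM

/-- The polynomial `∑_{n<X} t_n z^n`. -/
noncomputable def pX (t : ℕ → ℤ) (X : ℕ) : ℤ[X] := ∑ n ∈ Finset.range X, monomial n (t n)

theorem coeff_pX (t : ℕ → ℤ) (X n : ℕ) : (pX t X).coeff n = if n < X then t n else 0 := by
  unfold pX
  rw [finsetSum_coeff]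
  simp only [coeff_monomial]
  by_cases h : n < X
  · rw [if_pos h, Finset.sum_eq_single n]
    · simp
    · intro b _ hb
      rw [if_neg hb]
    · intro h2
      exact absurd (Finset.mem_range.2 h) h2
  · rw [if_neg h]
    refine Finset.sum_eq_zero fun b hb => ?_
    rw [if_neg]
    rintro rfl
    exact h (Finset.mem_range.1 hb)

theorem coe_pX (t : ℕ → ℤ) (X : ℕ) :
    ((pX t X : ℤ[X]) : PowerSeries ℤ) = FF fun n => if n < X then t n else 0 := by
  ext n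
  rw [Polynomial.coeff_coe, coeff_pX]
  exact (PowerSeries.coeff_mk (R := ℤ) n (fun n => if n < X then t n else 0)).symm

theorem coeff_FF (t : ℕ → ℤ) (n : ℕ) : PowerSeries.coeff n (FF t) = t n :=
  PowerSeries.coeff_mk (R := ℤ) n t

/-- Coefficients of powers of `F` below `X` only depend on the truncation. -/
theorem coeff_pow_eq (t : ℕ → ℤ) (X r v : ℕ) (hv : v < X) :
    PowerSeries.coeff v (FF t ^ r) =
      PowerSeries.coeff v ((FF fun n => if n < X then t n else 0) ^ r) := by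
  induction r generalizing v with
  | zero => rw [pow_zero, pow_zero]
  | succ r ih =>
    rw [pow_succ, pow_succ, PowerSeries.coeff_mul, PowerSeries.coeff_mul]
    refine Finset.sum_congr rfl fun x hx => ?_
    have hx' : x.1 + x.2 = v := Finset.HasAntidiagonal.mem_antidiagonal.1 hx
    have h2 : PowerSeries.coeff x.2 (FF fun n => if n < X then t n else 0) = t x.2 := by
      rw [coeff_FF, if_pos (by omega)]
    rw [ih x.1 (by omega), coeff_FF, h2]

theorem aeval_eq_sum' (Q : ℤ[X]) (f : PowerSeries ℤ) :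
    aeval f Q = ∑ i ∈ Q.support, PowerSeries.C (Q.coeff i) * f ^ i := by
  rw [aeval_def, eval₂_eq_sum, Polynomial.sum_def]
  refine Finset.sum_congr rfl fun i _ => ?_
  rfl

theorem coeff_aeval (Q : ℤ[X]) (f : PowerSeries ℤ) (v : ℕ) :
    PowerSeries.coeff v (aeval f Q) = ∑ i ∈ Q.support, Q.coeff i * PowerSeries.coeff v (f ^ i) := by
  rw [aeval_eq_sum', map_sum]
  refine Finset.sum_congr rfl fun i _ => ?_
  rw [PowerSeries.coeff_C_mul]

/-- The polynomial `Q(∑_{n<X} t_n z^n)`. -/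
noncomputable def R (t : ℕ → ℤ) (Q : ℤ[X]) (X : ℕ) : ℤ[X] := Q.comp (pX t X)

theorem coeff_R (t : ℕ → ℤ) (Q : ℤ[X]) (X v : ℕ) :
    (R t Q X).coeff v = ∑ i ∈ Q.support, Q.coeff i *
      PowerSeries.coeff v ((FF fun n => if n < X then t n else 0) ^ i) := by
  unfold R
  rw [comp, eval₂_eq_sum, Polynomial.sum_def, finsetSum_coeff]
  refine Finset.sum_congr rfl fun i _ => ?_
  rw [coeff_C_mul, ← coe_pX, ← Polynomial.coe_pow, Polynomial.coeff_coe]

theorem coeff_R_of_lt (t : ℕ → ℤ) (Q : ℤ[X]) (X v : ℕ) (hv : v < X) :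
    (R t Q X).coeff v = PowerSeries.coeff v (aeval (FF t) Q) := by
  rw [coeff_R, coeff_aeval]
  exact Finset.sum_congr rfl fun i _ => by rw [coeff_pow_eq t X i v hv]

/-- The truncated value of `β`. -/
noncomputable def bX (b : ℕ) (t : ℕ → ℤ) (X : ℕ) : ℝ :=
  ∑ n ∈ Finset.range X, (t n : ℝ) / (b : ℝ) ^ n

theorem aeval_pX (b : ℕ) (t : ℕ → ℤ) (X : ℕ) : aeval ((b : ℝ)⁻¹) (pX t X) = bX b t X := by
  unfold pX bX
  rw [map_sum]
  refine Finset.sum_congr rfl fun n _ => ?_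
  rw [aeval_monomial, inv_pow, div_eq_mul_inv]
  rfl

theorem aeval_R (b : ℕ) (t : ℕ → ℤ) (Q : ℤ[X]) (X : ℕ) :
    aeval ((b : ℝ)⁻¹) (R t Q X) = aeval (bX b t X) Q := by
  unfold R
  rw [aeval_comp, aeval_pX]

theorem TT_eq (b : ℕ) (t : ℕ → ℤ) (Q : ℤ[X]) (X : ℕ) :
    TT b t Q X = ∑ v ∈ Finset.range X, ((R t Q X).coeff v : ℝ) / (b : ℝ) ^ v := by
  unfold TT tau
  rw [Int.toNat_natCast]
  exact Finset.sum_congr rfl fun v hv => by rw [coeff_R_of_lt t Q X v (Finset.mem_range.1 hv)]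

theorem abs_coeff_pow_le {p q : ℤ[X]} (h : ∀ n, |p.coeff n| ≤ q.coeff n) (i v : ℕ) :
    |(p ^ i).coeff v| ≤ (q ^ i).coeff v := by
  induction i generalizing v with
  | zero =>
    rw [pow_zero, pow_zero, coeff_one]
    split_ifs <;> simp
  | succ i ih =>
    rw [pow_succ, pow_succ, coeff_mul, coeff_mul]
    refine (Finset.abs_sum_le_sum_abs _ _).trans (Finset.sum_le_sum fun x _ => ?_)
    rw [abs_mul]
    exact mul_le_mul (ih x.1) (h x.2) (abs_nonneg _) ((abs_nonneg _).trans (ih x.1))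

theorem sum_coeff_le {q : ℤ[X]} (h : ∀ n, 0 ≤ q.coeff n) (N : ℕ) :
    ∑ v ∈ Finset.range N, q.coeff v ≤ q.eval 1 := by
  have h1 : q.eval 1 = ∑ v ∈ Finset.range (N + (q.natDegree + 1)), q.coeff v := by
    rw [eval_eq_sum_range' (n := N + (q.natDegree + 1)) (by omega)]
    simp
  rw [h1]
  exact Finset.sum_le_sum_of_subset_of_nonneg (Finset.range_mono (by omega)) fun i _ _ => h i

theorem sum_abs_coeff_pow_le (t : ℕ → ℤ) (B : ℕ) (hB : ∀ n, |t n| ≤ B) (X i N : ℕ) :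
    ∑ v ∈ Finset.range N, |(pX t X ^ i).coeff v| ≤ ((B * X) ^ i : ℕ) := by
  have h1 : ∀ n, |(pX t X).coeff n| ≤ (pX (fun n => |t n|) X).coeff n := by
    intro n
    rw [coeff_pX, coeff_pX]
    split_ifs <;> simp
  refine (Finset.sum_le_sum fun v _ => abs_coeff_pow_le h1 i v).trans ?_
  refine (sum_coeff_le (fun n => (abs_nonneg _).trans (abs_coeff_pow_le h1 i n)) N).trans ?_
  rw [eval_pow]
  have h2 : (pX (fun n => |t n|) X).eval 1 ≤ ((B * X : ℕ) : ℤ) := by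
    unfold pX
    rw [eval_finsetSum]
    have h3 : ∀ n ∈ Finset.range X, (monomial n |t n|).eval 1 ≤ (B : ℤ) := by
      intro n _
      rw [eval_monomial, one_pow, mul_one]
      exact hB n
    refine (Finset.sum_le_sum h3).trans ?_
    rw [Finset.sum_const, Finset.card_range, nsmul_eq_mul]
    push_cast
    rw [mul_comm]
  have h4 : 0 ≤ (pX (fun n => |t n|) X).eval 1 := by
    unfold pX
    rw [eval_finsetSum]
    refine Finset.sum_nonneg fun n _ => ?_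
    rw [eval_monomial, one_pow, mul_one]
    exact abs_nonneg _
  calc _ ≤ ((B * X : ℕ) : ℤ) ^ i := pow_le_pow_left₀ h4 h2 i
    _ = _ := by push_cast; rfl

theorem l1_nonneg (Q : ℤ[X]) : 0 ≤ l1 Q := Finset.sum_nonneg fun _ _ => abs_nonneg _

theorem coeff_R' (t : ℕ → ℤ) (Q : ℤ[X]) (X v : ℕ) :
    (R t Q X).coeff v = ∑ i ∈ Q.support, Q.coeff i * (pX t X ^ i).coeff v := by
  rw [coeff_R]
  refine Finset.sum_congr rfl fun i _ => ?_
  rw [← coe_pX, ← Polynomial.coe_pow, Polynomial.coeff_coe]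

theorem sum_abs_R_le (t : ℕ → ℤ) (B D W : ℕ) (hB1 : 1 ≤ B) (hB : ∀ n, |t n| ≤ B) (Q : ℤ[X])
    (hQ : Q.natDegree ≤ D) (X N : ℕ) (hX : X ≤ W) :
    ∑ v ∈ Finset.range N, |((R t Q X).coeff v : ℝ)| ≤ l1 Q * ((B : ℝ) * (W + 1)) ^ D := by
  have h1 : ∀ v ∈ Finset.range N, |((R t Q X).coeff v : ℝ)| ≤
      ∑ i ∈ Q.support, |(Q.coeff i : ℝ)| * |((pX t X ^ i).coeff v : ℝ)| := by
    intro v _
    rw [coeff_R']
    push_cast
    refine (Finset.abs_sum_le_sum_abs _ _).trans (le_of_eq ?_)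
    exact Finset.sum_congr rfl fun i _ => abs_mul _ _
  refine (Finset.sum_le_sum h1).trans ?_
  rw [Finset.sum_comm]
  unfold l1
  rw [Finset.sum_mul]
  refine Finset.sum_le_sum fun i hi => ?_
  rw [← Finset.mul_sum]
  refine mul_le_mul_of_nonneg_left ?_ (abs_nonneg _)
  have h2 : i ≤ D := (le_natDegree_of_mem_supp i hi).trans hQ
  have h3 : ∑ v ∈ Finset.range N, |((pX t X ^ i).coeff v : ℝ)| ≤ ((B * X) ^ i : ℕ) := by
    exact_mod_cast sum_abs_coeff_pow_le t B hB X i N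
  refine h3.trans ?_
  have h4 : (B * X) ^ i ≤ (B * (W + 1)) ^ D :=
    (Nat.pow_le_pow_left (Nat.mul_le_mul_left B (by omega)) i).trans
      (Nat.pow_le_pow_right (Nat.mul_pos hB1 (by omega)) h2)
  exact_mod_cast h4

theorem coeff_R_gap (t : ℕ → ℤ) (B : ℕ) (hB : ∀ n, |t n| ≤ B) (D K : ℕ) (Q : ℤ[X])
    (hQ : Q.natDegree ≤ D) (X : ℕ) (hG : Gap t K D X) (v : ℕ) (h1 : X ≤ v) (h2 : v < X + K) :
    (R t Q X).coeff v = 0 := by
  rw [coeff_R]
  refine Finset.sum_eq_zero fun i hi => ?_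
  by_contra hne
  obtain ⟨ν, h3, h4, h5⟩ := (specSUPP t B (fun n => n < X) i v hB).1 (right_ne_zero_of_mul hne)
  have h6 : IsSum t D v := ⟨ν, by rw [h3]; exact (le_natDegree_of_mem_supp i hi).trans hQ,
    fun x hx => (h4 x hx).2, h5⟩
  rcases hG v h6 with h | h
  · have : v < X := by exact_mod_cast h
    omega
  · have : X + K ≤ v := by exact_mod_cast h
    omega

theorem summable_bet (b : ℕ) (hb : 2 ≤ b) (t : ℕ → ℤ) (B : ℕ) (hB : ∀ n, |t n| ≤ B) :
    Summable fun n => (t n : ℝ) / (b : ℝ) ^ n := by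
  have hb' : (2 : ℝ) ≤ b := by exact_mod_cast hb
  have hg : Summable fun n : ℕ => (B : ℝ) * ((b : ℝ)⁻¹) ^ n :=
    (summable_geometric_of_lt_one (by positivity) (inv_lt_one_of_one_lt₀ (by linarith))).mul_left _
  refine Summable.of_norm_bounded hg fun n => ?_
  rw [Real.norm_eq_abs, abs_div, abs_of_pos (by positivity : (0 : ℝ) < (b : ℝ) ^ n), inv_pow,
    ← div_eq_mul_inv]
  have : |(t n : ℝ)| ≤ B := by exact_mod_cast hB n
  gcongr

theorem abs_bet_sub (b : ℕ) (hb : 2 ≤ b) (t : ℕ → ℤ) (B : ℕ) (hB : ∀ n, |t n| ≤ B) (M : ℕ) :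
    |bet b t - bX b t M| ≤ 2 * B / (b : ℝ) ^ M := by
  have hb' : (2 : ℝ) ≤ b := by exact_mod_cast hb
  have hb0 : (0 : ℝ) < b := by linarith
  have hs := summable_bet b hb t B hB
  have h1 : bet b t - bX b t M = ∑' n, (t (n + M) : ℝ) / (b : ℝ) ^ (n + M) := by
    unfold bet bX
    rw [← hs.sum_add_tsum_nat_add M]
    ring
  rw [h1]
  have hlt : (b : ℝ)⁻¹ < 1 := inv_lt_one_of_one_lt₀ (by linarith)
  have hg : HasSum (fun n : ℕ => (B : ℝ) / (b : ℝ) ^ M * ((b : ℝ)⁻¹) ^ n)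
      ((B : ℝ) / (b : ℝ) ^ M * (1 - (b : ℝ)⁻¹)⁻¹) :=
    (hasSum_geometric_of_lt_one (by positivity) hlt).mul_left _
  have h2 : ‖∑' n, (t (n + M) : ℝ) / (b : ℝ) ^ (n + M)‖ ≤
      (B : ℝ) / (b : ℝ) ^ M * (1 - (b : ℝ)⁻¹)⁻¹ := by
    refine tsum_of_norm_bounded hg fun n => ?_
    rw [Real.norm_eq_abs, abs_div, abs_of_pos (by positivity : (0 : ℝ) < (b : ℝ) ^ (n + M))]
    have h3 : |(t (n + M) : ℝ)| ≤ B := by exact_mod_cast hB (n + M)
    have h4 : (B : ℝ) / (b : ℝ) ^ M * ((b : ℝ)⁻¹) ^ n = B / (b : ℝ) ^ (n + M) := by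
      rw [pow_add, inv_pow]
      field_simp
    rw [h4]
    gcongr
  rw [Real.norm_eq_abs] at h2
  refine h2.trans ?_
  have h5 : (1 - (b : ℝ)⁻¹)⁻¹ ≤ 2 := by
    have h6 : (b : ℝ)⁻¹ ≤ 2⁻¹ := inv_anti₀ (by norm_num) hb'
    rw [inv_le_comm₀ (by linarith) (by norm_num)]
    linarith
  calc (B : ℝ) / (b : ℝ) ^ M * (1 - (b : ℝ)⁻¹)⁻¹ ≤ (B : ℝ) / (b : ℝ) ^ M * 2 := by gcongr
    _ = 2 * B / (b : ℝ) ^ M := by ring

theorem abs_bX_le (b : ℕ) (hb : 2 ≤ b) (t : ℕ → ℤ) (B : ℕ) (hB : ∀ n, |t n| ≤ B) (X : ℕ) :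
    |bX b t X| ≤ 2 * B := by
  have h1 := abs_bet_sub b hb (fun n => if n < X then t n else 0) B (fun n => by
    split_ifs
    · exact hB n
    · simp) 0
  have h3 : bet b (fun n => if n < X then t n else 0) = bX b t X := by
    unfold bet bX
    rw [tsum_eq_sum (s := Finset.range X)]
    · refine Finset.sum_congr rfl fun n hn => ?_
      simp only [if_pos (Finset.mem_range.1 hn)]
    · intro n hn
      have hn' : ¬ n < X := fun h => hn (Finset.mem_range.2 h)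
      simp only [if_neg hn', Int.cast_zero, zero_div]
  rw [h3] at h1
  have h4 : bX b (fun n => if n < X then t n else 0) 0 = 0 := by simp [bX]
  rw [h4, sub_zero, pow_zero, div_one] at h1
  exact h1

theorem abs_bet_le (b : ℕ) (hb : 2 ≤ b) (t : ℕ → ℤ) (B : ℕ) (hB : ∀ n, |t n| ≤ B) :
    |bet b t| ≤ 2 * B := by
  have h1 := abs_bet_sub b hb t B hB 0
  have h4 : bX b t 0 = 0 := by simp [bX]
  rw [h4, sub_zero, pow_zero, div_one] at h1
  exact h1

theorem abs_pow_sub_le {x y C : ℝ} (hx : |x| ≤ C) (hy : |y| ≤ C) (j : ℕ) :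
    |x ^ (j + 1) - y ^ (j + 1)| ≤ (j + 1) * C ^ j * |x - y| := by
  have hC : 0 ≤ C := (abs_nonneg _).trans hx
  induction j with
  | zero => simp
  | succ j ih =>
    have h1 : x ^ (j + 1 + 1) - y ^ (j + 1 + 1) =
        x * (x ^ (j + 1) - y ^ (j + 1)) + (x - y) * y ^ (j + 1) := by ring
    rw [h1]
    refine (abs_add_le _ _).trans ?_
    rw [abs_mul, abs_mul, abs_pow]
    have h2 : |x| * |x ^ (j + 1) - y ^ (j + 1)| ≤ C * ((j + 1) * C ^ j * |x - y|) :=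
      mul_le_mul hx ih (abs_nonneg _) hC
    have h3 : |x - y| * |y| ^ (j + 1) ≤ |x - y| * C ^ (j + 1) :=
      mul_le_mul_of_nonneg_left (pow_le_pow_left₀ (abs_nonneg _) hy _) (abs_nonneg _)
    refine (add_le_add h2 h3).trans (le_of_eq ?_)
    push_cast
    ring

theorem abs_aeval_sub_le {x y C : ℝ} (hC : 1 ≤ C) (hx : |x| ≤ C) (hy : |y| ≤ C) (D : ℕ)
    (hD : 1 ≤ D) (Q : ℤ[X]) (hQ : Q.natDegree ≤ D) :
    |aeval x Q - aeval y Q| ≤ l1 Q * (D * C ^ (D - 1) * |x - y|) := by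
  have h1 : aeval x Q - aeval y Q = ∑ i ∈ Q.support, (Q.coeff i : ℝ) * (x ^ i - y ^ i) := by
    rw [aeval_def, aeval_def, eval₂_eq_sum, eval₂_eq_sum, Polynomial.sum_def, Polynomial.sum_def,
      ← Finset.sum_sub_distrib]
    refine Finset.sum_congr rfl fun i _ => ?_
    rw [mul_sub]
    rfl
  rw [h1]
  refine (Finset.abs_sum_le_sum_abs _ _).trans ?_
  unfold l1
  rw [Finset.sum_mul]
  refine Finset.sum_le_sum fun i hi => ?_
  rw [abs_mul]
  refine mul_le_mul_of_nonneg_left ?_ (abs_nonneg _)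
  have h2 : i ≤ D := (le_natDegree_of_mem_supp i hi).trans hQ
  rcases Nat.eq_zero_or_pos i with h0 | h0
  · rw [h0]
    simp only [pow_zero, sub_self, abs_zero]
    positivity
  · obtain ⟨j, rfl⟩ : ∃ j, i = j + 1 := ⟨i - 1, by omega⟩
    refine (abs_pow_sub_le hx hy j).trans ?_
    have h3 : ((j : ℝ) + 1) ≤ D := by exact_mod_cast h2
    have h4 : C ^ j ≤ C ^ (D - 1) := pow_le_pow_right₀ hC (by omega)
    gcongr



theorem bX_gap (b : ℕ) (t : ℕ → ℤ) (K D X : ℕ) (hD : 1 ≤ D) (hG : Gap t K D X) :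
    bX b t (X + K) = bX b t X := by
  unfold bX
  symm
  refine Finset.sum_subset (Finset.range_mono (by omega)) fun n hn hn' => ?_
  have h1 : n < X + K := Finset.mem_range.1 hn
  have h2 : ¬ n < X := fun h => hn' (Finset.mem_range.2 h)
  have h3 : t n = 0 := by
    by_contra hne
    have h6 : IsSum t D n := ⟨{n}, by simpa using hD, fun x hx => by
      rw [Multiset.mem_singleton.1 hx]; exact hne, by simp⟩
    rcases hG n h6 with h | h
    · have : n < X := by exact_mod_cast h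
      omega
    · have : X + K ≤ n := by exact_mod_cast h
      omega
  rw [h3]
  simp

theorem GG_ge (B D W : ℕ) (hB : 1 ≤ B) (hD : 1 ≤ D) (hDW : D ≤ W) :
    ((B : ℝ) * (W + 1)) ^ D + D * (2 * (B : ℝ)) ^ D ≤ GG B D W := by
  unfold GG
  have hB' : (1 : ℝ) ≤ B := by exact_mod_cast hB
  have hW : (2 : ℝ) ≤ W + 1 := by
    have : (1 : ℝ) ≤ W := by exact_mod_cast hD.trans hDW
    linarith
  have hDW' : (D : ℝ) ≤ W + 1 := by
    have : (D : ℝ) ≤ W := by exact_mod_cast hDW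
    linarith
  have h1 : (2 * (B : ℝ)) ^ D ≤ ((B : ℝ) * (W + 1)) ^ D := by
    apply pow_le_pow_left₀ (by positivity)
    nlinarith
  have h0 : 0 ≤ ((B : ℝ) * (W + 1)) ^ D := by positivity
  have h2 : (1 : ℝ) ≤ B * (W + 1) := by nlinarith
  have h3 : (D : ℝ) ≤ B * (W + 1) := by nlinarith
  have h4 : (D : ℝ) * (2 * (B : ℝ)) ^ D ≤ (B * (W + 1)) * ((B : ℝ) * (W + 1)) ^ D :=
    mul_le_mul h3 h1 (by positivity) (by positivity)
  have h5 : ((B : ℝ) * (W + 1)) ^ D ≤ (B * (W + 1)) * ((B : ℝ) * (W + 1)) ^ D := by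
    nlinarith
  rw [pow_succ]
  linarith

theorem abs_TT_sub_le (b : ℕ) (hb : 2 ≤ b) (t : ℕ → ℤ) (B D W K : ℕ) (Q : ℤ[X]) (X : ℕ)
    (hB1 : 1 ≤ B) (hB : ∀ n, |t n| ≤ B) (hQ : Q.natDegree ≤ D) (hX : X ≤ W)
    (hG : Gap t K D X) :
    |TT b t Q X - aeval (bX b t X) Q| ≤ l1 Q * ((B : ℝ) * (W + 1)) ^ D / (b : ℝ) ^ (X + K) := by
  have hb' : (2 : ℝ) ≤ b := by exact_mod_cast hb
  have hb0 : (0 : ℝ) < b := by linarith
  obtain ⟨N, hN, hN1⟩ : ∃ N, X + K ≤ N ∧ (R t Q X).natDegree < N :=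
    ⟨X + K + ((R t Q X).natDegree + 1), by omega, by omega⟩
  have h1 : aeval (bX b t X) Q = ∑ v ∈ Finset.range N,
      ((R t Q X).coeff v : ℝ) / (b : ℝ) ^ v := by
    rw [← aeval_R, aeval_eq_sum_range' hN1]
    refine Finset.sum_congr rfl fun v _ => ?_
    rw [zsmul_eq_mul, inv_pow, div_eq_mul_inv]
  have h2 : TT b t Q X = ∑ v ∈ Finset.range (X + K),
      ((R t Q X).coeff v : ℝ) / (b : ℝ) ^ v := by
    rw [TT_eq]
    refine Finset.sum_subset (Finset.range_mono (by omega)) fun v hv hv' => ?_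
    rw [coeff_R_gap t B hB D K Q hQ X hG v (by
      by_contra h
      exact hv' (Finset.mem_range.2 (by omega))) (Finset.mem_range.1 hv)]
    simp
  have h3 : TT b t Q X - aeval (bX b t X) Q =
      -∑ v ∈ Finset.Ico (X + K) N, ((R t Q X).coeff v : ℝ) / (b : ℝ) ^ v := by
    rw [h1, h2, ← Finset.sum_range_add_sum_Ico _ hN]
    ring
  rw [h3, abs_neg]
  refine (Finset.abs_sum_le_sum_abs _ _).trans ?_
  have h4 : ∀ v ∈ Finset.Ico (X + K) N, |((R t Q X).coeff v : ℝ) / (b : ℝ) ^ v| ≤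
      |((R t Q X).coeff v : ℝ)| / (b : ℝ) ^ (X + K) := by
    intro v hv
    rw [abs_div, abs_of_pos (by positivity : (0 : ℝ) < (b : ℝ) ^ v)]
    have h5 : (b : ℝ) ^ (X + K) ≤ (b : ℝ) ^ v :=
      pow_le_pow_right₀ (by linarith) (Finset.mem_Ico.1 hv).1
    gcongr
  refine (Finset.sum_le_sum h4).trans ?_
  rw [← Finset.sum_div]
  have h6 : ∑ v ∈ Finset.Ico (X + K) N, |((R t Q X).coeff v : ℝ)| ≤
      l1 Q * ((B : ℝ) * (W + 1)) ^ D := by
    refine le_trans ?_ (sum_abs_R_le t B D W hB1 hB Q hQ X N hX)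
    refine Finset.sum_le_sum_of_subset_of_nonneg ?_ fun v _ _ => abs_nonneg _
    intro v hv
    exact Finset.mem_range.2 (Finset.mem_Ico.1 hv).2
  gcongr

theorem first (b : ℕ) (hb : 2 ≤ b) (t : ℕ → ℤ) (B D W K : ℕ) (Q : ℤ[X]) (X : ℕ)
    (hB1 : 1 ≤ B) (hB : ∀ n, |t n| ≤ B) (hD : 1 ≤ D) (hDW : D ≤ W) (hQ : Q.natDegree ≤ D)
    (hX : X ≤ W) (hG : Gap t K D X) :
    |TT b t Q X - aeval (bet b t) Q| ≤ l1 Q * GG B D W / (b : ℝ) ^ (X + K) := by
  have hb' : (2 : ℝ) ≤ b := by exact_mod_cast hb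
  have hb0 : (0 : ℝ) < b := by linarith
  have hB1' : (1 : ℝ) ≤ B := by exact_mod_cast hB1
  have hA := abs_TT_sub_le b hb t B D W K Q X hB1 hB hQ hX hG
  have hC : |aeval (bX b t X) Q - aeval (bet b t) Q| ≤
      l1 Q * (D * (2 * (B : ℝ)) ^ D) / (b : ℝ) ^ (X + K) := by
    have h1 := abs_aeval_sub_le (C := 2 * (B : ℝ)) (by linarith) (abs_bX_le b hb t B hB X)
      (abs_bet_le b hb t B hB) D hD Q hQ
    refine h1.trans ?_
    have h2 : |bX b t X - bet b t| ≤ 2 * B / (b : ℝ) ^ (X + K) := by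
      rw [abs_sub_comm, ← bX_gap b t K D X hD hG]
      exact abs_bet_sub b hb t B hB (X + K)
    have h3 : (D : ℝ) * (2 * (B : ℝ)) ^ (D - 1) * |bX b t X - bet b t| ≤
        D * (2 * (B : ℝ)) ^ (D - 1) * (2 * B / (b : ℝ) ^ (X + K)) :=
      mul_le_mul_of_nonneg_left h2 (by positivity)
    refine (mul_le_mul_of_nonneg_left h3 (l1_nonneg Q)).trans (le_of_eq ?_)
    obtain ⟨d, rfl⟩ : ∃ d, D = d + 1 := ⟨D - 1, by omega⟩
    rw [Nat.add_sub_cancel, pow_succ]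
    ring
  have h4 := abs_sub_le (TT b t Q X) (aeval (bX b t X) Q) (aeval (bet b t) Q)
  refine h4.trans ((add_le_add hA hC).trans ?_)
  rw [← add_div, ← mul_add]
  have h5 := GG_ge B D W hB1 hD hDW
  have h6 := l1_nonneg Q
  gcongr

end TappM

open TappM in
theorem specTAPP : SpecTAPP := by
  intro b t B D W K Q X hb hB1 hB hD hDW hQ hX hG
  have hb' : (2 : ℝ) ≤ b := by exact_mod_cast hb
  have hb0 : (0 : ℝ) < b := by linarith
  have h1 := first b hb t B D W K Q X hB1 hB hD hDW hQ hX hG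
  refine ⟨h1, fun h0 hlt => ?_⟩
  rw [h0, sub_zero] at h1
  obtain ⟨m, hm⟩ : ∃ m : ℤ, TT b t Q X * (b : ℝ) ^ X = m := by
    refine ⟨∑ v ∈ Finset.range X, (R t Q X).coeff v * (b : ℤ) ^ (X - v), ?_⟩
    rw [TT_eq, Finset.sum_mul]
    push_cast
    refine Finset.sum_congr rfl fun v hv => ?_
    have h2 : (b : ℝ) ^ X = (b : ℝ) ^ v * (b : ℝ) ^ (X - v) := by
      rw [← pow_add]
      congr 1
      have := Finset.mem_range.1 hv
      omega
    rw [h2]
    field_simp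
  have h3 : |(m : ℝ)| < 1 := by
    rw [← hm, abs_mul, abs_of_pos (by positivity : (0 : ℝ) < (b : ℝ) ^ X)]
    calc |TT b t Q X| * (b : ℝ) ^ X ≤ l1 Q * GG B D W / (b : ℝ) ^ (X + K) * (b : ℝ) ^ X := by
          gcongr
      _ = l1 Q * GG B D W / (b : ℝ) ^ K := by
          rw [pow_add]
          field_simp
      _ < 1 := by
          rw [div_lt_one (by positivity)]
          exact hlt
  have h4 : m = 0 := by
    have : |m| < 1 := by exact_mod_cast h3
    exact Int.abs_lt_one_iff.1 this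
  rw [h4, Int.cast_zero] at hm
  rcases mul_eq_zero.1 hm with h | h
  · exact h
  · exact absurd h (by positivity)

end Pool.Agent.Lib.MP5b6025.DC
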